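import Pool.Agent.Helper78.MG.Goals

/-!
# Merlin-Arthur games with restricted last answers: packet MG-SPN
-/

namespace Pool.Agent.Helper58.MG

open Pool.Agent.Helper78.MG

/-- the span of the squarefree monomials of degree at most `D` -/
def PS (k D : ℕ) : Submodule (ZMod 2) ((Fin k → ZMod 2) → ZMod 2) :=
  Submodule.span (ZMod 2) (Set.range fun (T : {T : Finset (Fin k) // T.card ≤ D})
      (y : Fin k → ZMod 2) => ∏ j ∈ T.1, y j)

theorem mono_mem {k D : ℕ} (T : Finset (Fin k)) (hT : T.card ≤ D) :
    (fun y : Fin k → ZMod 2 => ∏ j ∈ T, y j) ∈ PS k D :=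
  Submodule.subset_span ⟨⟨T, hT⟩, rfl⟩

theorem PS_mono {k D D' : ℕ} (h : D ≤ D') : PS k D ≤ PS k D' := by
  refine Submodule.span_le.mpr ?_
  rintro _ ⟨T, rfl⟩
  exact mono_mem T.1 (T.2.trans h)

theorem one_mem {k D : ℕ} : (fun _ : Fin k → ZMod 2 => (1 : ZMod 2)) ∈ PS k D := by
  have := mono_mem (k := k) (D := D) ∅ (by simp)
  simpa using this

theorem zmod2_sq (a : ZMod 2) : a * a = a := by
  revert a
  decide

theorem coord_mul {k D : ℕ} (j : Fin k) {f : (Fin k → ZMod 2) → ZMod 2} (hf : f ∈ PS k D) :
    (fun y => y j * f y) ∈ PS k (D + 1) := by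
  classical
  induction hf using Submodule.span_induction with
  | mem x hx =>
    obtain ⟨T, rfl⟩ := hx
    by_cases hj : j ∈ T.1
    · have e : (fun y : Fin k → ZMod 2 => y j * ∏ i ∈ T.1, y i) =
          fun y => ∏ i ∈ T.1, y i := by
        funext y
        rw [← Finset.mul_prod_erase T.1 (fun i => y i) hj, ← mul_assoc, zmod2_sq]
      rw [e]
      exact mono_mem T.1 (T.2.trans (Nat.le_succ D))
    · have e : (fun y : Fin k → ZMod 2 => y j * ∏ i ∈ T.1, y i) =
          fun y => ∏ i ∈ insert j T.1, y i := by
        funext y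
        rw [Finset.prod_insert hj]
      rw [e]
      exact mono_mem _ (by rw [Finset.card_insert_of_notMem hj]; exact Nat.succ_le_succ T.2)
  | zero =>
    have e : (fun y : Fin k → ZMod 2 => y j * (0 : (Fin k → ZMod 2) → ZMod 2) y) = 0 := by
      funext y
      simp
    rw [e]
    exact Submodule.zero_mem _
  | add x y _ _ hx hy =>
    have e : (fun z : Fin k → ZMod 2 => z j * (x + y) z) =
        (fun z => z j * x z) + fun z => z j * y z := by
      funext z
      simp [mul_add]
    rw [e]
    exact Submodule.add_mem _ hx hy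
  | smul a x _ hx =>
    have e : (fun z : Fin k → ZMod 2 => z j * (a • x) z) = a • fun z => z j * x z := by
      funext z
      simp only [Pi.smul_apply, smul_eq_mul]
      ring
    rw [e]
    exact Submodule.smul_mem _ _ hx

theorem affine_mul {k D : ℕ} (b : ZMod 2) (A : Fin k → ZMod 2)
    {f : (Fin k → ZMod 2) → ZMod 2} (hf : f ∈ PS k D) :
    (fun y => (b + ∑ j, A j * y j) * f y) ∈ PS k (D + 1) := by
  have e : (fun y : Fin k → ZMod 2 => (b + ∑ j, A j * y j) * f y) =
      b • f + ∑ j, A j • fun y => y j * f y := by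
    funext y
    simp only [Pi.add_apply, Pi.smul_apply, smul_eq_mul, Finset.sum_apply, add_mul,
      Finset.sum_mul, mul_assoc]
  rw [e]
  exact Submodule.add_mem _ (Submodule.smul_mem _ _ (PS_mono (Nat.le_succ D) hf))
    (Submodule.sum_mem _ fun j _ => Submodule.smul_mem _ _ (coord_mul j hf))

theorem pow_mul_mem {k D : ℕ} (b : ZMod 2) (A : Fin k → ZMod 2) (n : ℕ)
    {f : (Fin k → ZMod 2) → ZMod 2} (hf : f ∈ PS k D) :
    (fun y => (b + ∑ j, A j * y j) ^ n * f y) ∈ PS k (D + n) := by
  induction n with
  | zero => simpa using hf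
  | succ n ih =>
    have e : (fun y : Fin k → ZMod 2 => (b + ∑ j, A j * y j) ^ (n + 1) * f y) =
        fun y => (b + ∑ j, A j * y j) * ((b + ∑ j, A j * y j) ^ n * f y) := by
      funext y
      ring
    rw [e]
    exact affine_mul b A ih

theorem prod_mem {m k : ℕ} (b : Fin m → ZMod 2) (A : Fin m → Fin k → ZMod 2) (s : Fin m → ℕ)
    (I : Finset (Fin m)) :
    (fun y : Fin k → ZMod 2 => ∏ i ∈ I, (b i + ∑ j, A i j * y j) ^ s i) ∈
      PS k (∑ i ∈ I, s i) := by
  classical
  induction I using Finset.induction_on with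
  | empty => simpa using one_mem
  | insert i I hi ih =>
    have e : (fun y : Fin k → ZMod 2 => ∏ i' ∈ insert i I, (b i' + ∑ j, A i' j * y j) ^ s i') =
        fun y => (b i + ∑ j, A i j * y j) ^ s i *
          ∏ i' ∈ I, (b i' + ∑ j, A i' j * y j) ^ s i' := by
      funext y
      rw [Finset.prod_insert hi]
    rw [e, Finset.sum_insert hi, add_comm]
    exact pow_mul_mem (b i) (A i) (s i) ih

theorem val_phi {m k : ℕ} (b : Fin m → ZMod 2) (A : Fin m → Fin k → ZMod 2)
    (y : Fin k → ZMod 2) (i : Fin m) :
    (if phi b A y i then (1 : ZMod 2) else 0) = b i + ∑ j, A i j * y j := by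
  unfold phi
  generalize b i + ∑ j, A i j * y j = v
  revert v
  decide

theorem card_bin (k D : ℕ) :
    (Finset.univ.filter fun T : Finset (Fin k) => T.card ≤ D).card = bin k D := by
  classical
  unfold bin
  rw [Finset.card_eq_sum_card_fiberwise (f := fun T : Finset (Fin k) => T.card)
    (t := Finset.range (D + 1))]
  · refine Finset.sum_congr rfl fun i hi => ?_
    have e : (Finset.univ.filter fun T : Finset (Fin k) => T.card ≤ D).filter
        (fun T => T.card = i) = Finset.powersetCard i Finset.univ := by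
      ext T
      simp only [Finset.mem_filter, Finset.mem_univ, true_and, Finset.mem_powersetCard,
        Finset.subset_univ]
      constructor
      · exact fun h => h.2
      · intro h
        have := Finset.mem_range.mp hi
        exact ⟨by omega, h⟩
    rw [e, Finset.card_powersetCard, Finset.card_univ, Fintype.card_fin]
  · intro T hT
    simp only [Finset.coe_filter, Finset.mem_univ, true_and] at hT
    simp only [Finset.coe_range, Set.mem_Iio]
    exact Nat.lt_succ_of_le hT

theorem spn : SpnStmt := by
  intro m k D b A Q hQ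
  constructor
  · have key : (fun y : Fin k → ZMod 2 =>
        MvPolynomial.eval (fun i => if phi b A y i then (1 : ZMod 2) else 0) Q) =
        ∑ s ∈ Q.support, Q.coeff s • fun y : Fin k → ZMod 2 =>
          ∏ i, (b i + ∑ j, A i j * y j) ^ s i := by
      funext y
      rw [MvPolynomial.eval_eq', Finset.sum_apply]
      refine Finset.sum_congr rfl fun s _ => ?_
      simp only [Pi.smul_apply, smul_eq_mul, val_phi]
    rw [key]
    refine Submodule.sum_mem _ fun s hs => Submodule.smul_mem _ _ ?_
    have h1 := prod_mem b A (fun i => s i) Finset.univ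
    have h2 : ∑ i, s i ≤ D := by
      have h3 := MvPolynomial.le_totalDegree hs
      rw [Finsupp.sum_fintype _ _ (fun _ => rfl)] at h3
      exact h3.trans hQ
    exact PS_mono h2 h1
  · rw [← card_bin k D, Fintype.card_subtype]

end Pool.Agent.Helper58.MG
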